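import Mathlib

/-!
# The inverse of a continuously differentiable function with derivative bounded below
-/

set_option autoImplicit false

namespace Pool.Agent.L5helper85.Comb

open Filter Topology

theorem exists_c1_inverse {f f' : ℝ → ℝ} {δ : ℝ} (hδ : 0 < δ) (hf : ∀ x, HasDerivAt f (f' x) x)
    (hc : Continuous f') (h : ∀ x, δ ≤ f' x) : StrictMono f ∧ ∃ g : ℝ → ℝ, ContDiff ℝ 1 g ∧
      (∀ x, g (f x) = x) ∧ (∀ y, f (g y) = y) := by
  have hpos : ∀ x, 0 < f' x := fun x => lt_of_lt_of_le hδ (h x)
  have hmono : StrictMono f := strictMono_of_deriv_pos fun x => by rw [(hf x).deriv]; exact hpos x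
  refine ⟨hmono, ?_⟩
  have hcont : Continuous f := continuous_iff_continuousAt.mpr fun x => (hf x).continuousAt
  -- `f x - δ x` is monotone
  have hm : Monotone fun x => f x - δ * x := by
    have hd : ∀ x, HasDerivAt (fun x => f x - δ * x) (f' x - δ * 1) x := fun x =>
      (hf x).sub ((hasDerivAt_id x).const_mul δ)
    refine monotone_of_deriv_nonneg (fun x => (hd x).differentiableAt) fun x => ?_
    rw [(hd x).deriv, mul_one]
    have := h x
    linarith
  have htop : Tendsto f atTop atTop := by
    have h1 : Tendsto (fun x : ℝ => f 0 + δ * x) atTop atTop :=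
      tendsto_atTop_add_const_left _ _ (tendsto_id.const_mul_atTop hδ)
    refine tendsto_atTop_mono' _ ?_ h1
    filter_upwards [eventually_ge_atTop 0] with x hx
    have h2 : f 0 - δ * 0 ≤ f x - δ * x := hm hx
    linarith
  have hbot : Tendsto f atBot atBot := by
    have h1 : Tendsto (fun x : ℝ => f 0 + δ * x) atBot atBot :=
      tendsto_atBot_add_const_left _ _ (tendsto_id.const_mul_atBot hδ)
    refine tendsto_atBot_mono' _ ?_ h1
    filter_upwards [eventually_le_atBot 0] with x hx
    have h2 : f x - δ * x ≤ f 0 - δ * 0 := hm hx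
    linarith
  have hsurj : Function.Surjective f := hcont.surjective htop hbot
  let e : ℝ ≃o ℝ := StrictMono.orderIsoOfSurjective f hmono hsurj
  have he : ∀ x, e.toHomeomorph x = f x := fun x => rfl
  have hC : ContDiff ℝ 1 f := by
    rw [contDiff_one_iff_deriv]
    refine ⟨fun x => (hf x).differentiableAt, ?_⟩
    have : deriv f = f' := funext fun x => (hf x).deriv
    rw [this]
    exact hc
  refine ⟨e.toHomeomorph.symm, ?_, fun x => ?_, fun y => ?_⟩
  · exact e.toHomeomorph.contDiff_symm_deriv (f' := f') (fun x => (hpos x).ne')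
      (fun x => hf x) hC
  · exact e.toHomeomorph.symm_apply_apply x
  · exact e.toHomeomorph.apply_symm_apply y

end Pool.Agent.L5helper85.Comb
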